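import Pool.Agent.N115.JS.Def

/-!
MP_160ed4_ag, Q1 (generalized Green-Griffiths-Lang), projective varieties: the base of the fibration
which is defined by multi-valued maps from an arbitrary projective variety `M` to the varieties of the
vectors whose `m`-th powers, for instance whose squares, are the values of a polynomial of degree at
most `n` at given constants.

`Corr ℂ L a n r` (`Pool/Agent/N115/JS/Cor.lean`): a rational map with at most `r` values (with
arbitrary branching) from the variety `M` with function field `L` to the variety `X_m` of the points
`x` of `P^N` such that `x i ^ m = P (a i)` for a polynomial `P` of degree at most `n`, given by a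
point `y` of `X_m` over an extension `E` of `L` of degree at most `r`; its polynomial is
`q ^ m * H`, where `H` has no `m`-fold factors. `red` is the reduced map with the coordinates
`y i / q (a i)`, `values` are the conjugates of the ratios of its coordinates. `baseField f` is the
function field of the base `M₀` of the fibration `M ⇢ M₀` which is defined by the family `f`: the
functions on `M` which are algebraic over all these values. The other definitions are in
`Pool/Agent/N115/JS/Def.lean`. The parts were written by the helpers 115, 966, 42, 835, 701, 664,
459, 603, 849, 530.
-/

set_option autoImplicit false

namespace Pool.Agent.Results.MP_160ed4_ag.MultivaluedCore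

open Pool.Agent.N115.JS

/-- Let `f` be any family of maps with at most `r` values from a projective variety `M` with generic
point `ξ` to the varieties `X_m ⊆ P^N`, `m ≥ 2`, of the points whose `m`-th powers are the values at
`a 0, ..., a N` of a polynomial of degree at most `n`, where `(r (r - 1) + 4) r n < N + 1`; there is
no condition on the dimension of `M` or on the maps. Let `M ⇢ M₀` be the fibration defined by `f`.

(1) The function field of `M₀` is the smallest subfield of the function field of `M`, algebraically
closed in it, over which the values of all reduced maps are algebraic.

(2) The projective models of `M₀` (they exist) are pseudo-Picard and pseudo-Brody hyperbolic, and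
off a proper closed subset there are no meromorphic images of affine spaces and no images of `G_m`.
Off a proper closed subset of `M` the holomorphic maps from the punctured disc to `M` extend over
`0` after composition with `M ⇢ M₀`, and the entire curves in `M` are mapped to points of `M₀`.

(3) Let `4 s r n + (s r n + s r (r - 1) + 1) ^ 2 < 2 (N + 1)`. `M₀` is a point or of general type if
`dim M₀ ≤ s` or if there are at most `s` maps; it is strongly of general type if `dim M₀ ≤ s`.

(4) If there is a Zariski-dense entire curve in `M` then `M₀` is a point, and the image of each of
the maps is contained in a linear subspace, of dimension at most `n / m`, which is contained in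
`X_m`.

(5) If the reduced maps are jointly generically finite then `M` itself satisfies the conditions of
(2), and those of (3). -/
theorem result {N n r : ℕ} (hr : 1 ≤ r) (hN : (r * (r - 1) + 4) * (r * n) < N + 1)
    {a : Fin (N + 1) → ℂ} (ha : Function.Injective a) {L : Type} [Field L] [Algebra ℂ L] {M : ℕ}
    {ξ : Fin (M + 1) → L} (hξ : IsModel ℂ ξ) {ι : Type} (f : ι → Corr ℂ L a n r) :
    Universal f ∧ HasModel ℂ (baseField f) ∧ BaseHyperbolic ξ f ∧ BaseGeneral f ∧
      BaseStronglyGeneral f ∧ DenseCurvesLinear ξ f ∧ (JointlyFinite f → FiveConditions ξ f) :=
  core_main hr hN ha hξ f

end Pool.Agent.Results.MP_160ed4_ag.MultivaluedCore
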