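import Pool.Agent.N155.L.OFin
import Pool.Agent.N155.L.Ell1

/-!
The generalized Green-Griffiths-Lang conjecture for open surfaces with symmetric differentials:
complements of divisors in a smooth projective surface, all of whose strata are of logarithmic
general type.
-/

set_option autoImplicit false

open FF Pool.Agent.W602.GT Pool.Agent.N155 LinearAlgebra.Projectivization

/-- Let `Y = {F = 0}` be a smooth projective surface with function field `K`, let `D_a = {G_a = 0}`
(`a = 1, ..., r`) be divisors in `Y`, and let `X` be the complement of their union. Suppose that for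
every closed subvariety `V` of `Y` of positive dimension (including `Y`) the stratum `V°`, the
complement in `V` of the `D_a` which do not contain `V`, is of logarithmic general type.

(1) Every holomorphic map from the complex plane to `X` of bounded derivative is tangent to every
regular symmetric differential of positive degree on `Y`.

(2) If for every extension `L` of `K` and every derivation `D : K → L` without nonconstant rational
first integrals there is a regular symmetric differential `σ` of positive degree on `Y` with
`σ(D) ≠ 0`, then `X` is hyperbolically embedded in `Y`; in particular all holomorphic maps from the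
complex plane to `X` are constant, and all holomorphic maps from the punctured disc to `X` extend to
holomorphic maps from the disc to `Y`.

(3) The same holds if `Y` carries a nonzero regular symmetric differential of the form
`h da₁ ⋯ da_d`, `d > 0`, with rational functions `h` and `a₁`, ..., `a_d`.

(4) The same holds if `Y` has a nonconstant rational map to an elliptic curve. -/
theorem Pool.Agent.Results.MP_160ed4_ag.OpenSymmetricDifferentials.result {n r : ℕ}
    {ι κ : Type} (F : ι → MvPolynomial (Fin (n + 1)) ℂ)
    (G : Fin r → κ → MvPolynomial (Fin (n + 1)) ℂ) {K : Type} [Field K] [Algebra ℂ K]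
    (y : Fin (n + 1) → K) (hX : OpenSurface F G y) :
    (∀ f : ℂ → ℙ ℂ (Fin (n + 1) → ℂ), HolMap f → (∀ z, InOpen F G (f z).rep) → BoundedDer f →
      ∀ σ : SymD K, 0 < σ.d → σ.Regular 2 → σ.Tangent y f) ∧
    ((∀ (L : Type) [Field L] [Algebra ℂ L] [Algebra K L] [IsScalarTower ℂ K L]
      (D : Derivation ℂ K L), (∀ k, D k = 0 → ∃ c : ℂ, k = algebraMap ℂ K c) →
      ∃ σ : SymD K, 0 < σ.d ∧ σ.Regular 2 ∧ σ.app D ≠ 0) → HypEmbedded F G) ∧
    (∀ (d : ℕ) (h : K) (a : Fin d → K), 0 < d → h ≠ 0 → (∀ l, Transcendental ℂ (a l)) →
      (⟨d, 1, fun _ => h, fun _ => a⟩ : SymD K).Regular 2 → HypEmbedded F G) ∧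
    (∀ (a b : K) (g2 g3 : ℂ), b ^ 2 = 4 * a ^ 3 - algebraMap ℂ K g2 * a - algebraMap ℂ K g3 →
      g2 ^ 3 ≠ 27 * g3 ^ 2 → Transcendental ℂ a → HypEmbedded F G) := by
  refine ⟨fun _ hf hfX hb _ hd hreg => hX.tangent_map hf hfX hb hd hreg, fun h => hX.hyp h,
    fun _ _ _ hd hh ha hreg => hX.hyp_of_prod hd hh ha hreg, fun a b g2 g3 hab hdisc ha => ?_⟩
  have hb : b ≠ 0 := by
    rintro rfl
    apply ha
    refine ⟨4 * Polynomial.X ^ 3 - Polynomial.C g2 * Polynomial.X - Polynomial.C g3, ?_, ?_⟩
    · intro h0
      have h1 := congrArg (fun p => Polynomial.coeff p 3) h0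
      have h4 : (4 : Polynomial ℂ) = Polynomial.C 4 := rfl
      simp only [Polynomial.coeff_sub, Polynomial.coeff_zero] at h1
      rw [h4, Polynomial.coeff_C_mul_X_pow] at h1
      simp [Polynomial.coeff_C, Polynomial.coeff_X] at h1
    · simp only [map_sub, map_mul, map_pow, Polynomial.aeval_X, Polynomial.aeval_C, map_ofNat]
      rw [← hab]
      ring
  exact hX.hyp_of_prod one_pos (inv_ne_zero hb) (fun _ => ha) (ell_regular hab hdisc 2)
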