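import Pool.Agent.N115.AN.Main

/-!
# The conditions of the generalized Green-Griffiths-Lang conjecture for the images of bounded degree
of the varieties of the vectors whose powers are the values of a polynomial

Let `a 0, ..., a N` be distinct complex numbers and `m ≥ 2`. Let `X ⊆ P^N` be the `n`-dimensional
complete intersection of the points `x` for which there is a polynomial `H` of degree at most `n`
such that `x i ^ m = H (a i)` for all `i`, and let `Z` be a closed subvariety of `X`, of any
dimension `w ≥ 1`. We consider all the projective varieties `W` which are dominated by `Z` with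
degree at most `r`, and all the varieties `W` with an `r`-valued map to `Z`; no assumption is made
on the branch loci or on the singularities of the maps.

The function-field language of the starting repository is used: `x` is the generic point of `W` in
homogeneous coordinates, and `L` the function field of `W` (`coords ℂ x = ⊤`: `L` is generated by
the ratios of the coordinates); `GeneralType ℂ L w`: `W` is of general type (`Pool/Agent/W602/GT`);
`StronglyGeneral ℂ x`: off a proper closed subset of `W`, all closed subvarieties of positive
dimension are of general type (`Pool/Agent/TH466/QG`); `PseudoPicard x`, `PseudoBrody x`,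
`PseudoAbelian x`, `PseudoTorus x`: proper closed subsets of `W` contain all holomorphic maps from
the punctured disc with an essential singularity, all entire curves, all the nonconstant meromorphic
maps from the spaces `ℂ ^ g`, all nonconstant morphisms from the multiplicative group
(`Pool/Agent/Y221/PD/Defs.lean`, `Pool/Agent/Y221/BD/Defs.lean`); `IsUniruled ℂ L w`: `W` is
uniruled (`Pool/Agent/W619/PQ/Defs.lean`); `Ruled ℂ K`: `Z` is birational to the product of a
variety and the projective line. The nonconstant rational maps from semi-abelian varieties include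
the morphisms from the multiplicative group, and they lift to meromorphic maps from `ℂ ^ g`.
-/

set_option autoImplicit false

open Pool.Agent.W602.GT (GeneralType Ruled coords)
open Pool.Agent.W619.PQ (IsUniruled)
open Pool.Agent.TH466.QG (StronglyGeneral)
open Pool.Agent.Y221.PD (PseudoPicard PseudoAbelian PseudoTorus)
open Pool.Agent.Y221.BD (PseudoBrody)

namespace Pool.Agent.Results.MP_160ed4_ag.PolynomialValueImagesFive

/-- `K` is the function field, and `y` the generic point in homogeneous coordinates, of a closed
subvariety `Z` of dimension `w` of the variety `X ⊆ P^N` of the points `x` for which there is a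
polynomial of degree at most `n` whose values at the `a i` are the `x i ^ m`; the polynomial of the
generic point is `H`. -/
structure Subvariety {N : ℕ} (a : Fin (N + 1) → ℂ) (n m w : ℕ) (K : Type) [Field K] [Algebra ℂ K]
    (y : Fin (N + 1) → K) (H : Polynomial K) : Prop where
  ne : y ≠ 0
  gen : coords ℂ y = ⊤
  dim : Algebra.trdeg ℂ K = w
  deg : H.natDegree ≤ n
  val : ∀ i, y i ^ m = H.eval (algebraMap ℂ K (a i))

/-- Let `m ≥ 2`, `r ≥ 1`, `4 n + (n + 2 r - 1) ^ 2 < 2 (N + 1)` and `(r (r - 1) + 4) r n < N + 1`, and
let `Z` be a closed subvariety of dimension `w ≥ 1` of `X`, with generic polynomial `H`.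
**(1)** Assume that `H` is not divisible by the `m`-th power of a polynomial of degree at least `2`.
For every projective variety `W` dominated by `Z` with degree at most `r`, the following are
equivalent: `W` is of general type; off a proper closed subset of `W` all closed subvarieties of
positive dimension are of general type, all punctured discs extend, there are no entire curves, no
nonconstant meromorphic maps from `ℂ ^ g`, no nonconstant morphisms from the multiplicative group;
`W` is not uniruled; `Z` is not ruled. If `Z` is not ruled, then all varieties `W` with generically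
finite dominant rational maps `Z' ⇢ Z` of any degree and `Z' ⇢ W` of degree at most `r` have all
these properties.
**(2)** The assumption holds if `n < 2 m`, and if `n < w + 2 (m - 1)`: so it holds for all `Z` of
codimension less than `2 (m - 1)` in `X`.
**(3)** If `Z` is of codimension less than `m - 1` in `X`, for instance if `Z = X`, then `Z` is not
ruled. -/
theorem result {N n m r : ℕ} (hm : 2 ≤ m) (hr : 1 ≤ r)
    (hN1 : 4 * n + (n + 2 * r - 1) ^ 2 < 2 * (N + 1))
    (hN2 : (r * (r - 1) + 4) * (r * n) < N + 1) (a : Fin (N + 1) → ℂ) (ha : Function.Injective a)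
    {K : Type} [Field K] [Algebra ℂ K] {w : ℕ} (hw : 1 ≤ w) {y : Fin (N + 1) → K}
    {H : Polynomial K} (hZ : Subvariety a n m w K y H) :
    ((∀ q : Polynomial K, 2 ≤ q.natDegree → ¬ q ^ m ∣ H) →
      (∀ (L : Type) [Field L] [Algebra ℂ L] [Algebra L K] [IsScalarTower ℂ L K]
        [FiniteDimensional L K], Module.finrank L K ≤ r → ∀ (M : ℕ) (x : Fin (M + 1) → L),
        x ≠ 0 → coords ℂ x = ⊤ →
        [GeneralType ℂ L w, StronglyGeneral ℂ x, PseudoPicard x, PseudoBrody x, PseudoAbelian x,
          PseudoTorus x, ¬ IsUniruled ℂ L w, ¬ Ruled ℂ K].TFAE) ∧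
      (¬ Ruled ℂ K → ∀ (K' L : Type) [Field K'] [Field L] [Algebra ℂ K'] [Algebra ℂ L]
        [Algebra K K'] [Algebra L K'] [IsScalarTower ℂ K K'] [IsScalarTower ℂ L K']
        [FiniteDimensional K K'] [FiniteDimensional L K'], Module.finrank L K' ≤ r →
        ∀ (M : ℕ) (x : Fin (M + 1) → L), x ≠ 0 → coords ℂ x = ⊤ →
        GeneralType ℂ L w ∧ StronglyGeneral ℂ x ∧ PseudoPicard x ∧ PseudoBrody x ∧
          PseudoAbelian x ∧ PseudoTorus x)) ∧
    (n < 2 * m ∨ n < w + 2 * (m - 1) → ∀ q : Polynomial K, 2 ≤ q.natDegree → ¬ q ^ m ∣ H) ∧
    (n < w + (m - 1) → ¬ Ruled ℂ K) := by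
  refine ⟨fun hfac => ⟨fun L _ _ _ _ _ hfr M x hx hgen => ?_,
    fun hnr K' L _ _ _ _ _ _ _ _ _ _ hfr M x hx hgen => ?_⟩, fun h q hq => ?_, fun h => ?_⟩
  · exact Pool.Agent.N115.AN.below_all Pool.Agent.N115.AN.alg_pow' Pool.Agent.N115.AN.picard_of'
      Pool.Agent.N115.AN.strong_of' hm hr hw ⟨hN1, hN2⟩ ha hZ.dim hZ.ne hZ.gen hZ.deg hZ.val hfac
      hfr hx hgen
  · rcases Pool.Agent.N115.AN.all_or_ruled Pool.Agent.N115.AN.alg_pow'
      Pool.Agent.N115.AN.picard_of' Pool.Agent.N115.AN.strong_of' hm hr hw ⟨hN1, hN2⟩ ha hZ.dim
      hZ.ne hZ.gen hZ.deg hZ.val hfac with h | h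
    · exact h K' L hfr M x hx hgen
    · exact absurd h hnr
  · exact Pool.Agent.N115.IM.no_factor hm hZ.dim hZ.ne hZ.gen hZ.deg hZ.val (d := 2)
      (h.imp (fun h => by omega) fun h => by omega) q hq
  · refine Pool.Agent.N115.IM.not_ruled hm hw ?_ ha hZ.dim hZ.ne hZ.gen hZ.deg hZ.val (Or.inr h)
    have h1 : n + 1 ≤ n + 2 * r - 1 := by omega
    have h2 : (n + 1) ^ 2 ≤ (n + 2 * r - 1) ^ 2 := Nat.pow_le_pow_left h1 2
    omega

end Pool.Agent.Results.MP_160ed4_ag.PolynomialValueImagesFive
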